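import Pool.Agent.Lib.MP_87c685_nt_RG.Final

/-!
# Elliptic curves with a rational 5-isogeny over all imaginary quadratic fields

`K` is an imaginary quadratic field, `E` an elliptic curve over `K` with `j`-invariant `j`.
All statements are about `j`, through the classical Hauptmoduln of level 3 and 5.
-/

set_option autoImplicit false
set_option linter.style.longLine false

open NumberField IsDedekindDomain

namespace Pool.Agent.Results.MP_87c685_nt.FiveIsogeny

variable {K : Type*} [Field K]

/-- `k` is the value of the Hauptmodul of `X_0(5)` at a rational cyclic 5-isogeny of a curve with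
`j`-invariant `j`. -/
def Borel5 (j k : K) : Prop := j * k = (k ^ 2 + 10 * k + 5) ^ 3

/-- `g` is the value of the Hauptmodul of `X_0(3)` at a rational cyclic 3-isogeny of a curve with
`j`-invariant `j`. -/
def Borel3 (j g : K) : Prop := j * g = (g + 27) * (g + 3) ^ 3

/-- `x` is the value of a Hauptmodul of `X(s3)` (normaliser of a split Cartan subgroup modulo 3)
above `j`; `c`, with `c³ = j`, is the one of the normaliser of a nonsplit Cartan subgroup. -/
def SplitCartan3 (j x : K) : Prop := ∃ c : K, c ^ 3 = j ∧ c * x = (x + 3) * (x - 9)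

/-- the mod 3 image lies in a nonsplit Cartan subgroup (not only in its normaliser) -/
def NonsplitCartan3 (j : K) : Prop :=
  ∃ c y : K, c ^ 3 = j ∧ y ^ 2 = -3 * (c ^ 2 + 12 * c + 144)

/-- The primes `w` of potentially multiplicative reduction (`j` is not integral at `w`) have at
most two types; the type of `w` says whether `x` is integral at `w` and whether `k` is. There are
four types: the four cusps. -/
def TwoTypes [NumberField K] (j x k : K) : Prop :=
  ∃ a b : Prop × Prop, ∀ w : HeightOneSpectrum (𝓞 K), 1 < w.valuation K j →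
    (1 < w.valuation K x, 1 < w.valuation K k) = a ∨
      (1 < w.valuation K x, 1 < w.valuation K k) = b

/-- `j` and `j'` are the `j`-invariants of two curves linked by a rational cyclic 3-isogeny -/
def Iso3 (j j' : K) : Prop :=
  ∃ g : K, g ≠ 0 ∧ j * g = (g + 27) * (g + 3) ^ 3 ∧ j' * g ^ 3 = (g + 27) * (g + 243) ^ 3

/-- `j` and `j'` are the `j`-invariants of two curves linked by a rational cyclic 5-isogeny -/
def Iso5 (j j' : K) : Prop :=
  ∃ k : K, k ≠ 0 ∧ j * k = (k ^ 2 + 10 * k + 5) ^ 3 ∧
    j' * k ^ 5 = (k ^ 2 + 250 * k + 3125) ^ 3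

/-- The exceptional `j`-invariants are roots of `p X² + q X + r` for these `(p, q, r)`: eight
isogeny classes and their conjugates, over `ℚ(√-d)` with `d = 1, 6, 7, 11, 39` (18 polynomials)
and `d = 7, 11, 95` (6 polynomials). -/
def exceptions : List (ℤ × ℤ × ℤ) :=
  [(32, -159425064, 292002166719225),
   (8, 7884, 3755447145),
   (2, 125226, 21613905945),
   (32768, 12213504, 1256085225),
   (351232, -440584014058293824, 164523373380706168868312637025),
   (1075648, 56960663824, 24263227724889505),
   (18990246039772, -22706636264837444, 16516478170024689505),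
   (7516192768, 38861485441024, 548570711939517025),
   (32, -960012, 16175081889),
   (34359738368, -131940637007904, 219266044589529729),
   (33554432, 114874356169728, 605420374231998136449),
   (128, -711234, 1291467969),
   (3, -127171, 6833986225),
   (14348907, -20629720639, 7464396532945),
   (243, 11634636299, 1375084218587268145),
   (27, -81289, 120670225),
   (1024, -86839516886, 2125794492560777401),
   (1125899906842624, 49809492452645167264, 583191665374505588364601),
   (16777216, 5425081893376, 735993917749900909),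
   (281474976710656, 169491000700854065896, 1570325792525939337046938109),
   (823974609375, -16656317478667648, 241573426180015108096),
   (1793613375, 14061494493279872, 69110871581730353360896),
   (231928233984, 1559159537772824, 5822100926091310141),
   (30091839012864, -95711103412447713800896, 87216691077900033802570367118541)]

/-- the nontrivial automorphism of `K` sends `j` to the `j`-invariant of a curve linked to the
original one by rational isogenies of degree 5 and 3, or of degree 5 -/
def LinkedToConjugate [NumberField K] (j : K) : Prop :=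
  ∃ σ : K ≃ₐ[ℚ] K, σ ≠ 1 ∧ (Iso5 j (σ j) ∨ ∃ j' : K, Iso5 j j' ∧ Iso3 (σ j) j')

theorem two_types_of_two_primes [NumberField K] (j x k : K) (P Q : HeightOneSpectrum (𝓞 K))
    (h : ∀ w : HeightOneSpectrum (𝓞 K), 1 < w.valuation K j → w = P ∨ w = Q) :
    TwoTypes j x k :=
  RG.twoTypes_of_two j x k P Q h

/-- **Main theorem.** -/
theorem result (K : Type*) [Field K] [NumberField K] [IsTotallyComplex K]
    (hK : Module.finrank ℚ K = 2) (E : WeierstrassCurve K) [E.IsElliptic] (k : K)
    (h5 : Borel5 E.j k)
    (h3 : (∃ g : K, Borel3 E.j g ∧ TwoTypes E.j g k) ∨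
      (∃ x : K, SplitCartan3 E.j x ∧ TwoTypes E.j x k) ∨ NonsplitCartan3 E.j) :
    (∃ q : ℚ, E.j = q) ∨ LinkedToConjugate E.j ∨
      ∃ p ∈ exceptions, (p.1 : K) * E.j ^ 2 + (p.2.1 : K) * E.j + (p.2.2 : K) = 0 := by
  rcases h3 with ⟨g, hg, hT⟩ | ⟨x, ⟨c, hc, hx⟩, hT⟩ | ⟨c, y, hc, hy⟩
  · rcases RG.finalA hK E.j g k h5 hg hT with h | ⟨σ, hσ, h⟩ | h
    · exact Or.inl h
    · exact Or.inr (Or.inl ⟨σ, hσ, Or.inr h⟩)
    · exact Or.inr (Or.inr h)
  · rcases RG.finalB hK E.j c x k h5 hc hx hT with h | ⟨σ, hσ, h⟩ | h
    · exact Or.inl h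
    · exact Or.inr (Or.inl ⟨σ, hσ, Or.inl h⟩)
    · exact Or.inr (Or.inr h)
  · rcases RG.finalC hK E.j c y k h5 hc hy with h | ⟨σ, hσ, h⟩
    · exact Or.inl h
    · exact Or.inr (Or.inl ⟨σ, hσ, Or.inl h⟩)

end Pool.Agent.Results.MP_87c685_nt.FiveIsogeny
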