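import Pool.Agent.Lib.MP_87c685_nt_CS.NoPoint
import Pool.Agent.Lib.MP_87c685_nt_CS.ExcI

/-!
# Elliptic curves over imaginary quadratic fields with a prime above 2 of potentially good reduction

`K` is an imaginary quadratic field, `E` an elliptic curve over `K` with `j`-invariant `j`, and `S`
is the set of the primes of `K` at which `j` is not integral (potentially multiplicative
reduction). All statements are about `j`, through the classical Hauptmoduln of level 3 and 5.
-/

set_option autoImplicit false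
set_option linter.style.longLine false

open NumberField IsDedekindDomain

namespace Pool.Agent.Results.MP_87c685_nt.GoodAtTwo

variable {K : Type*} [Field K]

/-- `k` is the value of the Hauptmodul of `X_0(5)` at a rational cyclic 5-isogeny of a curve with
`j`-invariant `j`. -/
def Borel5 (j k : K) : Prop := j * k = (k ^ 2 + 10 * k + 5) ^ 3

/-- `g` is the value of the Hauptmodul of `X_0(3)` at a rational cyclic 3-isogeny of a curve with
`j`-invariant `j`. -/
def Borel3 (j g : K) : Prop := j * g = (g + 27) * (g + 3) ^ 3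

/-- `x` is the value of a Hauptmodul of `X(s3)` (normaliser of a split Cartan subgroup modulo 3)
above `j`; `c`, with `c³ = j`, is the one of the normaliser of a nonsplit Cartan subgroup. -/
def SplitCartan3 (j x : K) : Prop := ∃ c : K, c ^ 3 = j ∧ c * x = (x + 3) * (x - 9)

/-- the mod 3 image lies in a nonsplit Cartan subgroup (not only in its normaliser) -/
def NonsplitCartan3 (j : K) : Prop :=
  ∃ c y : K, c ^ 3 = j ∧ y ^ 2 = -3 * (c ^ 2 + 12 * c + 144)

/-- `j` and `j'` are the `j`-invariants of two curves linked by a rational cyclic 3-isogeny -/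
def Iso3 (j j' : K) : Prop :=
  ∃ g : K, g ≠ 0 ∧ j * g = (g + 27) * (g + 3) ^ 3 ∧ j' * g ^ 3 = (g + 27) * (g + 243) ^ 3

/-- `j` and `j'` are the `j`-invariants of two curves linked by a rational cyclic 5-isogeny -/
def Iso5 (j j' : K) : Prop :=
  ∃ k : K, k ≠ 0 ∧ j * k = (k ^ 2 + 10 * k + 5) ^ 3 ∧
    j' * k ^ 5 = (k ^ 2 + 250 * k + 3125) ^ 3

/-- the nontrivial automorphism of `K` sends `j` to the `j`-invariant of a curve linked to the
original one by rational isogenies of degree 5 and 3, or of degree 5 -/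
def LinkedToConjugate [NumberField K] (j : K) : Prop :=
  ∃ σ : K ≃ₐ[ℚ] K, σ ≠ 1 ∧ (Iso5 j (σ j) ∨ ∃ j' : K, Iso5 j j' ∧ Iso3 (σ j) j')

/-- Some prime `w` above 2 is not in `S`; moreover `w` has norm 2 (2 is not inert), or 5 is not the
norm of an element of `K`, or some prime `v` lies in `S` and in its conjugate. -/
def MissesPrimeAboveTwo [NumberField K] (j : K) : Prop :=
  ∃ w : HeightOneSpectrum (𝓞 K), w.valuation K 2 < 1 ∧ w.valuation K j ≤ 1 ∧
    (Ideal.absNorm w.asIdeal = 2 ∨ (∀ z : K, Algebra.norm ℚ z ≠ 5) ∨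
      ∃ (σ : K ≃ₐ[ℚ] K) (v : HeightOneSpectrum (𝓞 K)), σ ≠ 1 ∧
        1 < v.valuation K j ∧ 1 < v.valuation K (σ j))

/-- `S` is stable under the automorphisms of `K` (as a set), and it contains a prime above 2 only
if this is the only prime above 2. -/
def Stable [NumberField K] (j : K) : Prop :=
  (∀ (σ : K ≃ₐ[ℚ] K) (w : HeightOneSpectrum (𝓞 K)), 1 < w.valuation K j →
    1 < w.valuation K (σ j)) ∧
  ∀ w w' : HeightOneSpectrum (𝓞 K), 1 < w.valuation K j → w.valuation K 2 < 1 →
    w'.valuation K 2 < 1 → w' = w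

/-- If 2 is not inert in `K` or 5 is not the norm of an element of `K`, then `S` contains all
primes above 2, for every `E` with a rational 5-isogeny and with a rational 3-isogeny or mod 3 image
in the normaliser of a split Cartan subgroup. -/
theorem primes_above_two (K : Type*) [Field K] [NumberField K] [IsTotallyComplex K]
    (hK : Module.finrank ℚ K = 2) (E : WeierstrassCurve K) [E.IsElliptic]
    (h5 : ∃ k : K, Borel5 E.j k) (h3 : (∃ g : K, Borel3 E.j g) ∨ ∃ x : K, SplitCartan3 E.j x)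
    (w : HeightOneSpectrum (𝓞 K)) (hw : w.valuation K 2 < 1)
    (hc : Ideal.absNorm w.asIdeal = 2 ∨ ∀ z : K, Algebra.norm ℚ z ≠ 5) :
    1 < w.valuation K E.j := by
  by_contra hj
  obtain ⟨k, h5⟩ := h5
  rcases h3 with ⟨g, hg⟩ | ⟨x, c, hc3, hx⟩
  · exact CS87.noPoint_A hK E.j g k h5 hg w hw (not_lt.1 hj) hc
  · exact CS87.noPoint_B hK E.j c x k h5 hc3 hx w hw (not_lt.1 hj) hc

/-- `S` is stable if each of its primes is the only prime above its residue characteristic. -/
theorem stable_of_nonsplit (K : Type*) [Field K] [NumberField K] (j : K)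
    (h : ∀ w w' : HeightOneSpectrum (𝓞 K), 1 < w.valuation K j →
      w'.asIdeal.under ℤ = w.asIdeal.under ℤ → w' = w) : Stable j :=
  CS87.conjStable_of_nonsplit j h

/-- **Main theorem.** -/
theorem result (K : Type*) [Field K] [NumberField K] [IsTotallyComplex K]
    (hK : Module.finrank ℚ K = 2) (hi : ∀ x : K, x ^ 2 ≠ -1)
    (E : WeierstrassCurve K) [E.IsElliptic] (h5 : ∃ k : K, Borel5 E.j k)
    (h3 : (∃ g : K, Borel3 E.j g) ∨ (∃ x : K, SplitCartan3 E.j x) ∨ NonsplitCartan3 E.j)
    (hS : MissesPrimeAboveTwo E.j ∨ Stable E.j) :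
    (∃ q : ℚ, E.j = q) ∨ LinkedToConjugate E.j := by
  obtain ⟨k, hk⟩ := h5
  rcases h3 with ⟨g, hg⟩ | ⟨x, c, hc, hx⟩ | ⟨c, y, hc, hy⟩
  · rcases hS with ⟨w, hw, hj, h | h | h⟩ | hS
    · exact (CS87.noPoint_A hK E.j g k hk hg w hw hj (Or.inl h)).elim
    · exact (CS87.noPoint_A hK E.j g k hk hg w hw hj (Or.inr h)).elim
    · rcases CS87.goodTwo_A hK E.j g k hk hg (Or.inl ⟨w, hw, hj, Or.inr (Or.inr h)⟩) with
        h | ⟨σ, hσ, h⟩
      · exact Or.inl h
      · exact Or.inr ⟨σ, hσ, Or.inr h⟩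
    · rcases CS87.stable_A hK E.j g k hk hg hS with h | ⟨σ, hσ, h⟩ | h
      · exact Or.inl h
      · exact Or.inr ⟨σ, hσ, Or.inr h⟩
      · obtain ⟨x, hx⟩ := CS87.sqrt_neg_one_of_exc E.j h
        exact absurd hx (hi x)
  · rcases hS with ⟨w, hw, hj, h | h | h⟩ | hS
    · exact (CS87.noPoint_B hK E.j c x k hk hc hx w hw hj (Or.inl h)).elim
    · exact (CS87.noPoint_B hK E.j c x k hk hc hx w hw hj (Or.inr h)).elim
    · rcases CS87.goodTwo_B hK E.j c x k hk hc hx ⟨w, hw, hj, Or.inr (Or.inr h)⟩ with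
        h | ⟨σ, hσ, h⟩
      · exact Or.inl h
      · exact Or.inr ⟨σ, hσ, Or.inl h⟩
    · rcases CS87.stable_B hK E.j c x k hk hc hx hS with h | ⟨σ, hσ, h⟩ | h
      · exact Or.inl h
      · exact Or.inr ⟨σ, hσ, Or.inl h⟩
      · obtain ⟨x, hx⟩ := CS87.sqrt_neg_one_of_exc E.j h
        exact absurd hx (hi x)
  · rcases RG.finalC hK E.j c y k hk hc hy with h | ⟨σ, hσ, h⟩
    · exact Or.inl h
    · exact Or.inr ⟨σ, hσ, Or.inl h⟩

end Pool.Agent.Results.MP_87c685_nt.GoodAtTwo
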