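import Pool.Agent.Lib.MP_87c685_nt_SD.Cases
import Pool.Agent.Lib.MP_87c685_nt_SD.SqDisc
import Pool.Agent.Lib.MP_87c685_nt_SD.Fam
import Pool.Agent.Lib.MP_87c685_nt_SD.Glue
import Pool.Agent.Lib.MP_87c685_nt_SD.Model

/-!
# MP_87c685_nt: elliptic curves whose representation modulo 2 is not surjective

`K` is an imaginary quadratic field and `E` an elliptic curve over `K`. The action of the absolute
Galois group of `K` on `E[2]` is not surjective if and only if `E` has a `K`-rational point of order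
two or the discriminant of `E` is a square in `K`.

The subgroups of `GL_2(𝔽_5)` with surjective determinant whose intersection with `SL_2(𝔽_5)` is
absolutely reducible are, up to conjugation, the subgroups of the Borel subgroup, of a group of
order 16 (in the normaliser of a split Cartan subgroup), of the nonsplit Cartan subgroup and of
another group of order 24 (in its normaliser). The corresponding modular curves are described
through the `j`-invariant by their classical parametrisations.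
-/

set_option autoImplicit false

open NumberField

namespace Pool.Agent.Results.MP_87c685_nt.NonSurjectiveTwo

open SD87

section Defs

variable {K : Type*} [Field K]

/-- The elliptic curve has a rational point of order two. -/
def HasPointOfOrderTwo (E : WeierstrassCurve K) : Prop :=
  open Classical in ∃ P : E.toAffine.Point, P ≠ 0 ∧ P + P = 0

/-- `j` is the invariant of a curve with a rational cyclic 5-isogeny (a point of `X_0(5)`). -/
def Borel5 (j : K) : Prop := ∃ t : K, j * t = (t ^ 2 + 10 * t + 5) ^ 3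

/-- A point of the modular curve of the group of order 16 above `j`: `t` is the coordinate of the
modular curve of the normaliser of a split Cartan subgroup, `z` is the double cover. -/
def SplitType5 (j : K) : Prop := ∃ t z : K, t ^ 2 + 5 * t + 5 ≠ 0 ∧ z ^ 2 = 5 * (t ^ 2 - 20) ∧
  j * (t ^ 2 + 5 * t + 5) ^ 5 = ((t + 5) * (t ^ 2 - 5) * (t ^ 2 + 5 * t + 10)) ^ 3

/-- A point above `j` of the modular curve of the nonsplit Cartan subgroup (`e = 1`) or of the
other group of order 24 (`e = 5`): `l` is the coordinate of the modular curve of the normaliser,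
`a` is the double cover. -/
def NonsplitType5 (e : ℕ) (j : K) : Prop := ∃ l a : K, l ^ 2 - 5 ≠ 0 ∧
  a ^ 2 = -(e : K) * (2 * l ^ 2 - 10 * l + 15) ∧
  j * (l ^ 2 - 5) ^ 5 = 8000 * (l + 1) * (l * (l ^ 2 - 5 * l + 10)) ^ 3

/-- `j` and `j'` are the invariants of two curves linked by a rational isogeny of degree 2. -/
def Iso2 (j j' : K) : Prop := ∃ h : K, h ≠ 0 ∧ j * h = (h + 16) ^ 3 ∧
  j' * h ^ 2 = (h + 256) ^ 3

/-- `j` and `j'` are the invariants of two curves linked by a rational cyclic isogeny of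
degree 5. -/
def Iso5 (j j' : K) : Prop := ∃ t : K, t ≠ 0 ∧ j * t = (t ^ 2 + 10 * t + 5) ^ 3 ∧
  j' * t ^ 5 = (t ^ 2 + 250 * t + 3125) ^ 3

/-- The conjugate `j'` of `j` is linked to it by an isogeny of degree 2, of degree 5, or by one of
degree 2 and one of degree 5. -/
def Linked (j j' : K) : Prop := Iso2 j j' ∨ Iso5 j j' ∨ ∃ i : K, Iso2 j i ∧ Iso5 i j'

end Defs

/-- The curves `c y ^ 2 = x (x ^ 2 + 22 x + 125)` and `c y ^ 2 = x (x ^ 2 + 5 x - 25)` (the twists
by `c` of two curves of conductors 20 and 100) have no rational points with `x ≠ 0`. -/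
def OnlyTorsion (c : ℚ) : Prop := c ≠ 0 ∧
  (∀ x y : ℚ, c * y ^ 2 = x * (x ^ 2 + 22 * x + 125) → x = 0) ∧
  ∀ x y : ℚ, c * y ^ 2 = x * (x ^ 2 + 5 * x - 25) → x = 0

/-- `c` is different from `5` and one of `P, -P, 5P, -5P`, where `P` is a product of an even number
of distinct primes congruent to `3` or `7` modulo `20` (that is, `P` is `1` or `4` modulo `5`). The
empty product `P = 1` is allowed, so that `c = 1` is in the family. -/
def InFamily (c : ℤ) : Prop := c ≠ 5 ∧ ∃ P : ℤ, (0 < P ∧ Squarefree P ∧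
  (∀ p : ℕ, p.Prime → (p : ℤ) ∣ P → p % 20 = 3 ∨ p % 20 = 7) ∧ (P % 5 = 1 ∨ P % 5 = 4)) ∧
    (c = P ∨ c = -P ∨ c = 5 * P ∨ c = -5 * P)

theorem iso2_of {K : Type*} [Field K] [CharZero K] {j j' : K} (h : Step2 j j') : Iso2 j j' := by
  obtain ⟨δ, h0, h1, h2⟩ := h
  refine ⟨16 * δ, mul_ne_zero (by norm_num) h0, ?_, ?_⟩
  · linear_combination 16 * h1
  · linear_combination 256 * h2

/-- **Main theorem.** Let `K` be an imaginary quadratic field and `E` an elliptic curve over `K` with
a `K`-rational point of order two, or whose discriminant is a square in `K` (or more generally a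
square times a rational number `c` in the family above, or such that two explicit elliptic curves
over `ℚ` have no points). Suppose that the image of Galois on `E[5]` is small. In the case of a
point of order two and a 5-isogeny suppose also that `j` is a cube. Then `j` is rational or linked
to its conjugate by isogenies of degree 2 and 5. -/
theorem result (K : Type*) [Field K] [NumberField K] [IsTotallyComplex K]
    (hK : Module.finrank ℚ K = 2) (E : WeierstrassCurve K) [E.IsElliptic]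
    (h2 : HasPointOfOrderTwo E ∨ ∃ c : ℚ, (OnlyTorsion c ∨ ∃ m : ℤ, InFamily m ∧ c = m) ∧
      IsSquare ((c : K) * E.Δ))
    (h5 : Borel5 E.j ∨ SplitType5 E.j ∨ NonsplitType5 1 E.j ∨ NonsplitType5 5 E.j)
    (h3 : HasPointOfOrderTwo E → Borel5 E.j → ∃ n : K, E.j = n ^ 3) :
    (∃ q : ℚ, E.j = q) ∨ ∃ σ : K ≃ₐ[ℚ] K, σ ≠ 1 ∧ Linked E.j (σ E.j) := by
  obtain ⟨Q, hn⟩ := exists_qf K hK
  obtain ⟨σ, hσ, hQ⟩ := exists_aut Q
  have hcast : ∀ q : ℚ, algebraMap ℚ K q = (q : K) := fun q => eq_ratCast _ q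
  have fin : (∃ q : ℚ, E.j = algebraMap ℚ K q) → ∃ q : ℚ, E.j = q := fun ⟨q, hq⟩ =>
    ⟨q, by rw [hq, hcast]⟩
  rcases h2 with h2 | ⟨c, hc, d, hd⟩
  · obtain ⟨P, hP, h2P⟩ := h2
    obtain ⟨x, hx⟩ := root_of_point E P hP h2P
    obtain ⟨h, hh, hj⟩ := model_two E hx
    have fin2 : (∃ q : ℚ, E.j = algebraMap ℚ K q) ∨ Step2 E.j (Q.sig E.j) →
        (∃ q : ℚ, E.j = q) ∨ ∃ σ : K ≃ₐ[ℚ] K, σ ≠ 1 ∧ Linked E.j (σ E.j) := by
      rintro (h | h)
      · exact Or.inl (fin h)
      · exact Or.inr ⟨σ, hσ, Or.inl (by rw [hQ]; exact iso2_of h)⟩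
    rcases h5 with hB | ⟨t, z, h1, h2, h3⟩ | ⟨l, a, h1, h2, h3⟩ | ⟨l, a, h1, h2, h3⟩
    · obtain ⟨n, hn3⟩ := h3 ⟨P, hP, h2P⟩ hB
      obtain ⟨t, ht⟩ := hB
      have ht0 : t ≠ 0 := by
        rintro rfl
        norm_num at ht
      rcases Ten Q hn hh hj ht0 ht hn3 with h4 | h4 | ⟨j', h4, h5⟩
      · exact Or.inl (fin h4)
      · exact Or.inr ⟨σ, hσ, Or.inr (Or.inl (by rw [hQ]; exact h4))⟩
      · exact Or.inr ⟨σ, hσ, Or.inr (Or.inr ⟨j', iso2_of h4, by rw [hQ]; exact h5⟩)⟩
    · exact fin2 (case16 Q hn hh hj h1 h2 h3)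
    · refine fin2 (caseCns Q hn hh hj h1 (a := a) ?_ h3)
      rw [h2, Nat.cast_one]
      ring
    · refine fin2 (case24 Q hh hj h1 (r := a) ?_ h3)
      rw [h2, Nat.cast_ofNat]
  · have hc' : OnlyTorsion c := by
      rcases hc with hc | ⟨m, ⟨hm5, P, hP, hm⟩, rfl⟩
      · exact hc
      · have hF : FamC P m := ⟨hP, hm⟩
        exact ⟨by exact_mod_cast fam_ne_zero hF, fam22 hF, fam5 hF hm5⟩
    obtain ⟨hc0, H22, H5⟩ := hc'
    have hcK : algebraMap ℚ K c ≠ 0 := by rw [Ne, map_eq_zero]; exact hc0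
    obtain ⟨w, hw⟩ := model_disc E (d := d) hcK (by rw [hcast, hd]; ring)
    rcases h5 with ⟨t, ht⟩ | ⟨t, z, h1, h2, h3⟩ | ⟨l, a, h1, h2, h3⟩ | ⟨l, a, h1, h2, h3⟩
    · have ht0 : t ≠ 0 := by
        rintro rfl
        norm_num at ht
      rcases sq_b5 Q c hc0 H22 hw ht0 ht with h | h
      · exact Or.inl (fin h)
      · right
        refine ⟨σ, hσ, Or.inr (Or.inl ⟨t, ht0, ht, ?_⟩)⟩
        have h4 : Q.sig t ≠ 0 := by
          intro h5
          rw [h5, mul_zero] at h
          norm_num at h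
        have h5 : Q.sig E.j * Q.sig t = (Q.sig t ^ 2 + 10 * Q.sig t + 5) ^ 3 := by
          rw [← map_mul, ht]
          simp only [map_pow, map_add, map_mul, map_ofNat]
        rw [hQ]
        refine mul_right_cancel₀ (pow_ne_zero 6 h4) ?_
        have e1 : Q.sig E.j * t ^ 5 * Q.sig t ^ 6 =
            (t * Q.sig t) ^ 5 * (Q.sig E.j * Q.sig t) := by ring
        have e2 : (t ^ 2 + 250 * t + 3125) ^ 3 * Q.sig t ^ 6 =
            ((t * Q.sig t) ^ 2 + 250 * (t * Q.sig t) * Q.sig t + 3125 * Q.sig t ^ 2) ^ 3 := by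
          ring
        rw [e1, e2, h5, h]
        ring
    · exact Or.inl (fin (sq_h16 Q hn c hc0 H5 hw h1 h2 h3))
    · refine Or.inl (fin (sq_ns Q c 1 hc0 H5 one_pos hw h1 (a := a) ?_ h3))
      rw [h2, map_one, Nat.cast_one]
    · refine Or.inl (fin (sq_ns Q c 5 hc0 H5 (by norm_num) hw h1 (a := a) ?_ h3))
      rw [h2, map_ofNat, Nat.cast_ofNat]

end Pool.Agent.Results.MP_87c685_nt.NonSurjectiveTwo
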