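import Mathlib
import Pool.Agent.Lib.MP_87c685_nt_X15B.Main
import Pool.Agent.Lib.MP_87c685_nt_X15B.ClassGe
import Pool.Agent.Lib.MP_87c685_nt_X15B.Glue

/-!
# MP_87c685_nt: the rank of `X_0(15)` over imaginary quadratic fields

By Caraiani and Newton (arXiv 2301.10509) every elliptic curve over an imaginary quadratic field `K`
with `X_0(15)(K)` finite is modular.
-/

set_option autoImplicit false

namespace Pool.Agent.Results.MP_87c685_nt.RankX015

open NumberField WeierstrassCurve X15B

open Classical in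
/-- Let `K` be an imaginary quadratic field in which `3` is inert if and only if `5` splits
(equivalently, the root number of `X_0(15)` over `K` is `+1`), and let `Φ_K` be the set of
squarefree positive integers `c` which are norms from `K`, all of whose prime factors ramify in `K`
or are equal to `5` in case `3` is inert, and which are `1` modulo `3` in case `3` is inert. Then
`X_0(15)(K)` is finitely generated and its rank `r` satisfies `2 ^ (r + 2) ≤ |Φ_K| ^ 2`; it is
finite if `|Φ_K| ≤ 2`; and if `3` is not inert, then `|Φ_K|` is twice the number of ideal classes of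
order at most `2` which are squares, so that `r` is at most twice the `4`-rank of the class group. -/
theorem result (K : Type*) [Field K] [NumberField K] [IsTotallyComplex K]
    (h2 : Module.finrank ℚ K = 2)
    (h : (Ideal.span {(3 : 𝓞 K)}).IsPrime ↔
      ∃ P Q : Ideal (𝓞 K), P ≠ Q ∧ P.IsPrime ∧ Q.IsPrime ∧ (5 : 𝓞 K) ∈ P ∧ (5 : 𝓞 K) ∈ Q) :
    Module.Finite ℤ (X015 K).toAffine.Point ∧
    2 ^ (Module.finrank ℤ (X015 K).toAffine.Point + 2) ≤ Nat.card (PhiK K) ^ 2 ∧
    (Nat.card (PhiK K) ≤ 2 → Finite (X015 K).toAffine.Point) ∧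
    (¬ (Ideal.span {(3 : 𝓞 K)}).IsPrime → Nat.card (PhiK K) =
      2 * Nat.card {c : ClassGroup (𝓞 K) // c ^ 2 = 1 ∧ ∃ b, b ^ 2 = c}) := by
  obtain ⟨n, s, hn, hs, hPhi, h3, h5⟩ := glue K h2
  obtain ⟨m1, m2, m3, m4⟩ := main n hn (by rw [← h3, ← h5]; exact h) K h2 s hs
  rw [hPhi]
  refine ⟨m1, m2, m4, fun h3n => ?_⟩
  have h3' : n % 3 ≠ 1 := fun e => h3n (h3.2 e)
  exact le_antisymm (m3 h3') (card_Phi_ge n hn h3' K h2 s hs)

end Pool.Agent.Results.MP_87c685_nt.RankX015
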